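import Pool.Agent.H38.Wcol.Red

/-!
If list `F`-colouring is NP-complete, then some weighted extension of `F` has an NP-complete
`(H, C, K)`-colouring problem.
-/

namespace Pool.Agent.Results.MP_58e31d_lc.Pos

open Pool.Agent.H38.NP Pool.Agent.H38.Wcol

theorem result (q : ℕ) (F : Fin q → Fin q → Prop) (hF : ∀ u v, F u v → F v u)
    (h : NPComplete (lang (ListCol F))) :
    ∃ (r : ℕ) (H : Fin q ⊕ Fin r → Fin q ⊕ Fin r → Prop) (K : Fin r → ℕ),
      (∀ x y, H x y → H y x) ∧ (∀ u v, H (Sum.inl u) (Sum.inl v) ↔ F u v) ∧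
        NPComplete (lang (WCol H K)) :=
  ⟨rr q, Hx F, fun _ => 1, by
    rintro (x | x) (y | y) h
    exacts [hF _ _ h, h, h, h.symm], fun _ _ => Iff.rfl, wcol_np _, main F h.2⟩

end Pool.Agent.Results.MP_58e31d_lc.Pos
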